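import Pool.Agent.Y560.TG.Stm

/-!
# TG: thin with names implies small; smallness in structures with names
-/

set_option autoImplicit false

namespace Pool.Agent.Y421.TG

open Set MeasureTheory
open Pool.Agent.Y560.TG
open Pool.Agent.H899R2.VP (St Adj PIso BF IsoOn idOn inv comp zipSet BF_iff)
open Pool.Agent.H533R2.VO (RS lift put OS Ic RIso Dich VC BlkV S_FINAL)
open Pool.Agent.H566P (ar R2 v2 a0 a1 lt ac co mk LA LL MB lab sh prec pull S_ACC S_MSG)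

theorem t_SI1 (hT : S_TRQ) (hF : S_FILL) : S_SI1 := by
  intro Γ _ g hg R O P β hR hM hβ hTh
  obtain ⟨f, hf⟩ := hTh
  obtain ⟨-, -, -, -, -, hT6, hT7⟩ := hT
  classical
  set W : ℕ → R2 := fun n => if h : ∃ V, Off O R V ∧ RIso (f n) (Nm O V) then h.choose else R with hW
  refine ⟨fun n => (ex P (W n), O), fun N Y hN => ?_⟩
  obtain ⟨V, hV1, hV2, hV3, -⟩ := hF Γ g hg R N O Y P β hR hM hβ hN
  obtain ⟨n, hn⟩ := hf (Nm O V) ((hT6 R V O β hβ).2 hV2)
  have hex : ∃ V, Off O R V ∧ RIso (f n) (Nm O V) := ⟨V, hV1, hn⟩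
  have hWn : Off O R (W n) ∧ RIso (f n) (Nm O (W n)) := by
    simp only [hW, dif_pos hex]
    exact hex.choose_spec
  obtain ⟨hW1, hW2⟩ := hWn
  have h1 : RIso (Nm O (W n)) (Nm O V) := by
    rw [riso_isoOn] at hn hW2 ⊢
    exact iso_trans0 (iso_symm0 hW2) hn
  obtain ⟨q, hq1, hq2, hq3, hq4, hq5⟩ := (hT7 (W n) V O).1 h1
  have hid : ∀ x, x ∉ O → (x, x) ∈ q := fun x hx => hq1 ⟨rfl, hx⟩
  have hO1 : ∀ x y, (x, y) ∈ q → x ∈ O → y ∈ O := by
    intro x y hxy hx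
    by_contra hy
    have := (piso_eq hq3 hxy (hid y hy)).2 rfl
    rw [this] at hx
    exact hy hx
  have hO2 : ∀ x y, (x, y) ∈ q → y ∈ O → x ∈ O := by
    intro x y hxy hy
    by_contra hx
    have := (piso_eq hq3 hxy (hid x hx)).1 rfl
    rw [this] at hy
    exact hx hy
  have hiso : IsoOn (lift (ex P (W n))) (lift (ex P V)) O O ∅ := by
    refine ⟨{u | u ∈ q ∧ u.1 ∈ O}, empty_subset _, ?_, ?_, ?_, ?_⟩
    · rintro ⟨x, y⟩ ⟨h1, h2⟩
      exact ⟨h2, hO1 x y h1 h2⟩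
    · rw [piso_ex]
      refine ⟨hq3.mono fun u hu => hu.1, fun k => ?_⟩
      rintro ⟨v, v'⟩ ⟨h1, h2⟩
      have h3 := hO1 v v' h1 h2
      refine ((hM.2 v h2 v' h3).2 fun w hw => ?_) k
      have h4 := piso_lt hq3 h1 (hid w hw)
      have h5 := piso_lt hq3 (hid w hw) h1
      rw [hW1.1 v w (fun h => hw h.2), hV1.1 v' w (fun h => hw h.2)] at h4
      rw [hW1.1 w v (fun h => hw h.1), hV1.1 w v' (fun h => hw h.1)] at h5
      exact ⟨h4, h5⟩
    · intro x hx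
      obtain ⟨y, hy⟩ := hq4 x (mem_univ x)
      exact ⟨y, hy, hx⟩
    · intro y hy
      obtain ⟨x, hx⟩ := hq5 y (mem_univ y)
      exact ⟨x, hx, hO2 x y hx hy⟩
  exact ⟨n, iso_trans0 hiso (iso_symm0 hV3)⟩

/-- from the coding with names to the coding without names -/
noncomputable def dec (N : R2) : R2 :=
  mk (lt N) (ac N) fun m v => if m % 2 = 0 then co N (2 * m) v else co N m v

/-- from the coding without names to the coding with names -/
noncomputable def enc (N : R2) : R2 :=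
  mk (lt N) (ac N) fun m v => if m % 2 = 1 then co N m v else if m % 4 = 0 then co N (m / 2) v
    else False

lemma lt_dec (N : R2) (x y : ℕ) : lt (dec N) x y ↔ lt N x y := lt_mk _ _ _ _ _
lemma ac_dec (N : R2) (n x y : ℕ) : ac (dec N) n x y ↔ ac N n x y := ac_mk _ _ _ _ _ _
lemma lt_enc (N : R2) (x y : ℕ) : lt (enc N) x y ↔ lt N x y := lt_mk _ _ _ _ _
lemma ac_enc (N : R2) (n x y : ℕ) : ac (enc N) n x y ↔ ac N n x y := ac_mk _ _ _ _ _ _
lemma co_dec_even (N : R2) (b x : ℕ) : co (dec N) (2 * b) x ↔ co N (4 * b) x := by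
  unfold dec
  rw [co_mk, if_pos (by omega), show 2 * (2 * b) = 4 * b by ring]
lemma co_dec_odd (N : R2) (b x : ℕ) : co (dec N) (2 * b + 1) x ↔ co N (2 * b + 1) x := by
  unfold dec
  rw [co_mk, if_neg (by omega)]
lemma co_enc_odd (N : R2) (b x : ℕ) : co (enc N) (2 * b + 1) x ↔ co N (2 * b + 1) x := by
  unfold enc
  rw [co_mk, if_pos (by omega)]
lemma co_enc_four (N : R2) (b x : ℕ) : co (enc N) (4 * b) x ↔ co N (2 * b) x := by
  unfold enc
  rw [co_mk, if_neg (by omega), if_pos (by omega), show 4 * b / 2 = 2 * b by omega]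
lemma co_enc_nm (N : R2) (b x : ℕ) : ¬ co (enc N) (4 * b + 2) x := by
  unfold enc
  rw [co_mk, if_neg (by omega), if_neg (by omega)]
  exact id

lemma dec_enc (N : R2) : dec (enc N) = N := by
  refine R2_ext (fun x y => ?_) (fun n x y => ?_) (fun n x => ?_)
  · rw [lt_dec, lt_enc]
  · rw [ac_dec, ac_enc]
  · obtain ⟨k, rfl | rfl⟩ : ∃ k, n = 2 * k ∨ n = 2 * k + 1 := ⟨n / 2, by omega⟩
    · rw [co_dec_even, co_enc_four]
    · rw [co_dec_odd, co_enc_odd]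

/-- the isomorphisms of the decoded structures -/
lemma piso_dec {N N' : R2} {p : Set (ℕ × ℕ)} (h : PIso (lift N) (lift N') p) :
    PIso (lift (dec N)) (lift (dec N')) p := by
  rw [piso_iff] at h ⊢
  obtain ⟨h1, h2, h3, h4⟩ := h
  refine ⟨h1, fun u hu v hv => ?_, fun n u hu v hv => ?_, fun n u hu => ?_⟩
  · rw [lt_dec, lt_dec]; exact h2 u hu v hv
  · rw [ac_dec, ac_dec]; exact h3 n u hu v hv
  · obtain ⟨k, rfl | rfl⟩ : ∃ k, n = 2 * k ∨ n = 2 * k + 1 := ⟨n / 2, by omega⟩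
    · rw [co_dec_even, co_dec_even]; exact h4 _ u hu
    · rw [co_dec_odd, co_dec_odd]; exact h4 _ u hu

/-- the isomorphisms of structures with false names -/
lemma piso_of_dec {N N' : R2} {p : Set (ℕ × ℕ)} (h : PIso (lift (dec N)) (lift (dec N')) p)
    (hN : ∀ b, ∀ u ∈ p, ¬ co N (4 * b + 2) u.1) (hN' : ∀ b, ∀ u ∈ p, ¬ co N' (4 * b + 2) u.2) :
    PIso (lift N) (lift N') p := by
  rw [piso_iff] at h ⊢
  obtain ⟨h1, h2, h3, h4⟩ := h
  refine ⟨h1, fun u hu v hv => ?_, fun n u hu v hv => ?_, fun n u hu => ?_⟩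
  · have := h2 u hu v hv
    rwa [lt_dec, lt_dec] at this
  · have := h3 n u hu v hv
    rwa [ac_dec, ac_dec] at this
  · obtain ⟨k, rfl | rfl | rfl⟩ : ∃ k, n = 4 * k ∨ n = 4 * k + 2 ∨ n = 2 * k + 1 := by
      rcases Nat.even_or_odd' n with ⟨j, rfl | rfl⟩
      · rcases Nat.even_or_odd' j with ⟨i, rfl | rfl⟩
        · exact ⟨i, by omega⟩
        · exact ⟨i, by omega⟩
      · exact ⟨j, by omega⟩
    · have := h4 (2 * k) u hu
      rwa [co_dec_even, co_dec_even] at this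
    · exact iff_of_false (hN k u hu) (hN' k u hu)
    · have := h4 (2 * k + 1) u hu
      rwa [co_dec_odd, co_dec_odd] at this

lemma bf_map {M N M' N' : St ar} {X Y : Set ℕ}
    (h : ∀ q, q ⊆ X ×ˢ Y → PIso M N q → PIso M' N' q) (o : Ordinal.{0}) :
    ∀ p : Set (ℕ × ℕ), p ⊆ X ×ˢ Y → BF M N X Y o p → BF M' N' X Y o p := by
  induction o using WellFoundedLT.induction with
  | ind o ih =>
    intro p hp hb
    rw [BF_iff] at hb ⊢
    have hins : ∀ x y, x ∈ X → y ∈ Y → insert (x, y) p ⊆ X ×ˢ Y :=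
      fun x y hx hy => insert_subset ⟨hx, hy⟩ hp
    refine ⟨h p hp hb.1, fun o' ho' => ⟨fun x hx => ?_, fun y hy => ?_⟩⟩
    · obtain ⟨y, hy, hxy⟩ := (hb.2 o' ho').1 x hx
      exact ⟨y, hy, ih o' ho' _ (hins x y hx hy) hxy⟩
    · obtain ⟨x, hx, hxy⟩ := (hb.2 o' ho').2 y hy
      exact ⟨x, hx, ih o' ho' _ (hins x y hx hy) hxy⟩

lemma iso_map {M N M' N' : St ar} {X Y : Set ℕ}
    (h : ∀ q, q ⊆ X ×ˢ Y → PIso M N q → PIso M' N' q) (hi : IsoOn M N X Y ∅) :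
    IsoOn M' N' X Y ∅ := by
  obtain ⟨q, h1, h2, h3, h4, h5⟩ := hi
  exact ⟨q, h1, h2, h q h2 h3, h4, h5⟩

lemma lbn (D : Set ℕ) (R : R2) (y : ℕ) :
    lb (Nm D R) y = ex (Q R y) (ex (fun k v => v = k ∧ v ∉ D) R) := by
  unfold lb Nm
  congr 1
  funext m v
  exact propext (Q_ex _ _ _ _ _)

lemma dec_lbn (D : Set ℕ) (R : R2) (y : ℕ) : dec (lb (Nm D R) y) = lb R y := by
  rw [lbn]
  unfold lb
  refine R2_ext (fun x y => ?_) (fun n x y => ?_) (fun n x => ?_)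
  · rw [lt_dec, lt_ex, lt_ex, lt_ex]
  · rw [ac_dec, ac_ex, ac_ex, ac_ex]
  · obtain ⟨k, rfl | rfl⟩ : ∃ k, n = 2 * k ∨ n = 2 * k + 1 := ⟨n / 2, by omega⟩
    · rw [co_dec_even, show 4 * k = 2 * (2 * k) by ring, co_ex_even, co_ex_even, co_ex_even]
    · rw [co_dec_odd, co_ex_odd, co_ex_odd]

lemma co_nm (D : Set ℕ) (R : R2) (y b v : ℕ) :
    co (lb (Nm D R) y) (4 * b + 2) v ↔ v = b ∧ v ∉ D := by
  rw [lbn, show 4 * b + 2 = 2 * (2 * b + 1) by ring, co_ex_even, co_ex_odd]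

theorem t_NSM : S_NSM := by
  intro R D X y β hβ
  have h1β : (1 : Ordinal.{0}) < β := lt_of_lt_of_le Ordinal.one_lt_omega0 hβ
  have h0β : (0 : Ordinal.{0}) < β := lt_trans zero_lt_one h1β
  refine ⟨fun hX => ⟨fun h => ?_, fun h => ?_⟩, fun hdis => ?_, fun u v => Ob_ex _ _ _ _⟩
  · -- from the structure without names
    obtain ⟨f, hf⟩ := h
    refine ⟨fun n => (enc (f n).1, (f n).2), fun N Y hN => ?_⟩
    have hB : ∀ b, ∀ v ∈ X, ¬ co (lb (Nm D R) y) (4 * b + 2) v := by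
      intro b v hv h1
      rw [co_nm] at h1
      exact h1.2 (hX hv)
    have hNn : ∀ b, ∀ v ∈ Y, ¬ co N (4 * b + 2) v := by
      intro b v hv h1
      obtain ⟨x, hx, hxv⟩ := hN.back h0β hv
      exact hB b x hx ((piso_co hxv.piso (mem_insert _ _)).2 h1)
    have h2 : BF (lift (lb R y)) (lift (dec N)) X Y β ∅ := by
      rw [← dec_lbn D R y]
      exact bf_map (fun q _ hq => piso_dec hq) β ∅ (empty_subset _) hN
    obtain ⟨n, hn⟩ := hf (dec N) Y h2
    refine ⟨n, iso_map (fun q hq hqi => ?_) hn⟩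
    refine piso_of_dec (by rw [dec_enc]; exact hqi) (fun b u _ => co_enc_nm _ b _)
      (fun b u hu => hNn b _ (hq hu).2)
  · -- from the structure with names
    obtain ⟨f, hf⟩ := h
    refine ⟨fun n => (dec (f n).1, (f n).2), fun N Y hN => ?_⟩
    have h2 : BF (lift (lb (Nm D R) y)) (lift (enc N)) X Y β ∅ := by
      refine bf_map (fun q hq hqi => ?_) β ∅ (empty_subset _) hN
      refine piso_of_dec (by rw [dec_lbn, dec_enc]; exact hqi) (fun b u hu h1 => ?_)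
        (fun b u _ => co_enc_nm _ b _)
      rw [co_nm] at h1
      exact h1.2 (hX (hq hu).1)
    obtain ⟨n, hn⟩ := hf (enc N) Y h2
    refine ⟨n, ?_⟩
    have h3 := iso_map (fun q _ hqi => piso_dec hqi) hn
    rwa [dec_enc] at h3
  · -- all elements are named
    refine ⟨fun _ => (lb (Nm D R) y, X), fun N Y hN => ⟨0, ?_⟩⟩
    set B := lb (Nm D R) y with hBd
    have hXD : ∀ x ∈ X, x ∉ D := fun x hx hD => (Set.disjoint_left.1 hdis) hx hD
    have key : ∀ (x x' : ℕ) (o : Ordinal.{0}) (p : Set (ℕ × ℕ)), co N (4 * x + 2) x' → x' ∈ Y →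
        0 < o → BF (lift B) (lift N) X Y o p → ∀ o' < o, BF (lift B) (lift N) X Y o' (insert (x, x') p) := by
      intro x x' o p hn hx' _ hb o' ho'
      obtain ⟨x1, hx1, hb1⟩ := hb.back ho' hx'
      have h1 := (piso_co hb1.piso (mem_insert _ _)).2 hn
      rw [hBd, co_nm] at h1
      rw [← h1.1]
      exact hb1
    have hpair : ∀ u v : ℕ × ℕ, u.1 ∈ X → u.2 ∈ Y → co N (4 * u.1 + 2) u.2 → v.1 ∈ X → v.2 ∈ Y →
        co N (4 * v.1 + 2) v.2 → PIso (lift B) (lift N) (insert u (insert v ∅)) := by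
      intro u v _ hu2 hu3 _ hv2 hv3
      have h1 := key v.1 v.2 β ∅ hv3 hv2 h0β hN 1 h1β
      have h2 := key u.1 u.2 1 _ hu3 hu2 zero_lt_one h1 0 zero_lt_one
      exact h2.piso
    refine ⟨{u | u.1 ∈ X ∧ u.2 ∈ Y ∧ co N (4 * u.1 + 2) u.2}, empty_subset _,
      fun u hu => ⟨hu.1, hu.2.1⟩, ?_, fun x hx => ?_, fun x' hx' => ?_⟩
    · rw [piso_iff]
      refine ⟨fun u hu v hv => ?_, fun u hu v hv => ?_, fun n u hu v hv => ?_, fun n u hu => ?_⟩
      · have h1 := hpair u v hu.1 hu.2.1 hu.2.2 hv.1 hv.2.1 hv.2.2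
        exact (piso_iff.1 h1).1 u (mem_insert _ _) v (mem_insert_of_mem _ (mem_insert _ _))
      · have h1 := hpair u v hu.1 hu.2.1 hu.2.2 hv.1 hv.2.1 hv.2.2
        exact (piso_iff.1 h1).2.1 u (mem_insert _ _) v (mem_insert_of_mem _ (mem_insert _ _))
      · have h1 := hpair u v hu.1 hu.2.1 hu.2.2 hv.1 hv.2.1 hv.2.2
        exact (piso_iff.1 h1).2.2.1 n u (mem_insert _ _) v (mem_insert_of_mem _ (mem_insert _ _))
      · have h1 := hpair u u hu.1 hu.2.1 hu.2.2 hu.1 hu.2.1 hu.2.2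
        exact (piso_iff.1 h1).2.2.2 n u (mem_insert _ _)
    · obtain ⟨x', hx', hb⟩ := hN.forth h0β hx
      refine ⟨x', hx, hx', (piso_co hb.piso (mem_insert _ _)).1 ?_⟩
      rw [hBd, co_nm]
      exact ⟨rfl, hXD x hx⟩
    · obtain ⟨x, hx, hb⟩ := hN.back h0β hx'
      refine ⟨x, hx, hx', (piso_co hb.piso (mem_insert _ _)).1 ?_⟩
      rw [hBd, co_nm]
      exact ⟨rfl, hXD x hx⟩

end Pool.Agent.Y421.TG
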